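import Pool.Agent.Helper42.Assemble

/-!
One infinite sequence all of whose long initial segments work.
-/

set_option autoImplicit false
set_option linter.unusedVariables false

namespace Pool.Agent.Helper42.BK

open Pool.Agent.Helper42

theorem finite_data (m : ℕ) : ∃ n : ℕ, 1 ≤ n ∧ ∃ s : ℕ → ℕ, (∀ i, 1 ≤ i → i ≤ n → 0 < s i) ∧
    ∃ W : Finset (ℕ × ℕ),
      (∀ w ∈ W, (∃ i, 1 ≤ i ∧ i + 1 ≤ n ∧ w = (s i, s (i + 1))) ∧
        (∃ j, 1 ≤ j ∧ j + 2 ≤ n ∧ w = (s j + s (j + 1), s (j + 2))) ∧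
        (∃ k, 1 ≤ k ∧ k + 2 ≤ n ∧ w = (s k, s (k + 1) + s (k + 2)))) ∧
      (1 - 1 / ((m : ℝ) + 1)) * (n : ℝ) ≤ W.card := by
  have hpos : (0 : ℝ) < 1 / ((m : ℝ) + 1) := by positivity
  have hle : 1 / ((m : ℝ) + 1) ≤ 1 := by
    rw [div_le_one (by positivity)]
    have : (0 : ℝ) ≤ m := Nat.cast_nonneg m
    linarith
  obtain ⟨n, hn, s, hs, hW⟩ := main_small hpos hle
  refine ⟨n, hn, s, fun i h1 h2 => hs i (Finset.mem_Icc.mpr ⟨h1, h2⟩), _, ?_, hW⟩
  intro w hw
  rw [Finset.mem_inter, Finset.mem_inter, Finset.mem_image, Finset.mem_image,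
    Finset.mem_image] at hw
  obtain ⟨⟨⟨i, hi, hiw⟩, ⟨j, hj, hjw⟩⟩, ⟨k, hk, hkw⟩⟩ := hw
  rw [Finset.mem_Icc] at hi hj hk
  exact ⟨⟨i, hi.1, by omega, hiw.symm⟩, ⟨j, hj.1, by omega, hjw.symm⟩,
    ⟨k, hk.1, by omega, hkw.symm⟩⟩

theorem infinite_nat : ∃ a : ℕ → ℕ, (∀ i, 1 ≤ i → 0 < a i) ∧
    ∀ ε : ℝ, 0 < ε → ∃ N : ℕ, ∀ n : ℕ, N ≤ n → ∃ U : Finset (ℕ × ℕ),
      (∀ w ∈ U, (∃ i, 1 ≤ i ∧ i + 1 ≤ n ∧ w = (a i, a (i + 1))) ∧
        (∃ j, 1 ≤ j ∧ j + 2 ≤ n ∧ w = (a j + a (j + 1), a (j + 2))) ∧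
        (∃ k, 1 ≤ k ∧ k + 2 ≤ n ∧ w = (a k, a (k + 1) + a (k + 2)))) ∧
      (1 - ε) * (n : ℝ) ≤ U.card := by
  choose n hn s hs W hW hc using finite_data
  -- bound of the values
  set Mx : ℕ → ℕ := fun m => (Finset.Icc 1 (n m)).sup (s m) with hMx
  have hMxle : ∀ m i, 1 ≤ i → i ≤ n m → s m i ≤ Mx m := by
    intro m i h1 h2
    exact Finset.le_sup (f := s m) (Finset.mem_Icc.mpr ⟨h1, h2⟩)
  -- choice of the block
  set f : ℕ → ℕ := fun t => Nat.findGreatest (fun m => m * n m ≤ t) t with hf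
  have hf1 : ∀ t, f t * n (f t) ≤ t := by
    intro t
    have := Nat.findGreatest_spec (P := fun m => m * n m ≤ t) (n := t) (m := 0) (Nat.zero_le _)
      (by simp)
    exact this
  have hf2 : ∀ m t, m ≤ t → m * n m ≤ t → m ≤ f t := by
    intro m t h1 h2
    exact Nat.le_findGreatest h1 h2
  -- positions
  obtain ⟨T, hT0, hTs⟩ : ∃ T : ℕ → ℕ, T 0 = 0 ∧ ∀ k, T (k + 1) = T k + n (f (T k)) :=
    ⟨fun k => Nat.rec 0 (fun _ t => t + n (f t)) k, rfl, fun k => rfl⟩
  have hTlt : ∀ k, T k < T (k + 1) := by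
    intro k
    rw [hTs]
    have := hn (f (T k))
    omega
  have hTmono : StrictMono T := strictMono_nat_of_lt_succ hTlt
  have hTge : ∀ k, k ≤ T k := hTmono.id_le
  -- factors
  set c : ℕ → ℕ := fun k => ∏ j ∈ Finset.range k, (Mx (f (T j)) + 1) with hcdef
  have hcs : ∀ k, c (k + 1) = c k * (Mx (f (T k)) + 1) := by
    intro k
    simp only [hcdef]
    rw [Finset.prod_range_succ]
  have hcpos : ∀ k, 0 < c k := by
    intro k
    simp only [hcdef]
    exact Finset.prod_pos (fun j _ => Nat.succ_pos _)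
  have hcmono : Monotone c := by
    apply monotone_nat_of_le_succ
    intro k
    rw [hcs]
    exact Nat.le_mul_of_pos_right _ (Nat.succ_pos _)
  -- the block of an index
  set κ : ℕ → ℕ := fun i => Nat.findGreatest (fun k => T k < i) i with hκ
  have hκ1 : ∀ i, 1 ≤ i → T (κ i) < i := by
    intro i hi
    have := Nat.findGreatest_spec (P := fun k => T k < i) (n := i) (m := 0) (Nat.zero_le _)
      (by rw [hT0]; omega)
    exact this
  have hκ2 : ∀ i, 1 ≤ i → i ≤ T (κ i + 1) := by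
    intro i hi
    by_contra hcon
    push Not at hcon
    have h1 : κ i + 1 ≤ i := (hTge _).trans hcon.le
    have h2 : κ i + 1 ≤ κ i := Nat.le_findGreatest (P := fun k => T k < i) h1 hcon
    omega
  have hκ3 : ∀ k j, 1 ≤ j → j ≤ n (f (T k)) → κ (T k + j) = k := by
    intro k j h1 h2
    have h3 := hκ1 (T k + j) (by omega)
    have h4 := hκ2 (T k + j) (by omega)
    have h5 : T k + j ≤ T (k + 1) := by rw [hTs]; omega
    have h6 : T k < T (κ (T k + j) + 1) := by omega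
    have h7 : T (κ (T k + j)) < T (k + 1) := by omega
    have h8 := hTmono.lt_iff_lt.mp h6
    have h9 := hTmono.lt_iff_lt.mp h7
    omega
  -- the sequence
  set a : ℕ → ℕ := fun i => c (κ i) * s (f (T (κ i))) (i - T (κ i)) with ha
  have hablock : ∀ k j, 1 ≤ j → j ≤ n (f (T k)) → a (T k + j) = c k * s (f (T k)) j := by
    intro k j h1 h2
    simp only [ha]
    rw [hκ3 k j h1 h2, Nat.add_sub_cancel_left]
  have hapos : ∀ i, 1 ≤ i → 0 < a i := by
    intro i hi
    have h1 := hκ1 i hi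
    have h2 := hκ2 i hi
    rw [hTs] at h2
    exact Nat.mul_pos (hcpos _) (hs _ _ (by omega) (by omega))
  -- the pairs
  set B : ℕ → Finset (ℕ × ℕ) := fun k =>
    (W (f (T k))).image (fun w => (c k * w.1, c k * w.2)) with hB
  have hBcard : ∀ k, (B k).card = (W (f (T k))).card := by
    intro k
    apply Finset.card_image_of_injective
    intro w w' h
    simp only [Prod.mk.injEq] at h
    exact Prod.ext (Nat.eq_of_mul_eq_mul_left (hcpos k) h.1)
      (Nat.eq_of_mul_eq_mul_left (hcpos k) h.2)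
  have hBrange : ∀ k, ∀ w ∈ B k, c k ≤ w.1 ∧ w.1 < c (k + 1) := by
    intro k w hw
    simp only [hB, Finset.mem_image] at hw
    obtain ⟨v, hv, rfl⟩ := hw
    obtain ⟨⟨i, hi1, hi2, hiv⟩, _⟩ := hW _ v hv
    have h1 : v.1 = s (f (T k)) i := by rw [hiv]
    have h2 := hs (f (T k)) i hi1 (by omega)
    have h3 := hMxle (f (T k)) i hi1 (by omega)
    rw [hcs]
    simp only
    rw [h1]
    constructor
    · exact Nat.le_mul_of_pos_right _ h2
    · exact Nat.mul_lt_mul_of_pos_left (by omega) (hcpos k)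
  have hdisj : ∀ k k', k < k' → Disjoint (B k) (B k') := by
    intro k k' hk
    rw [Finset.disjoint_left]
    intro w h1 h2
    have h3 := (hBrange k w h1).2
    have h4 := (hBrange k' w h2).1
    have h5 := hcmono (show k + 1 ≤ k' from hk)
    omega
  have hU : ∀ K N, T K ≤ N → ∀ w ∈ (Finset.range K).biUnion B,
      (∃ i, 1 ≤ i ∧ i + 1 ≤ N ∧ w = (a i, a (i + 1))) ∧
        (∃ j, 1 ≤ j ∧ j + 2 ≤ N ∧ w = (a j + a (j + 1), a (j + 2))) ∧
        (∃ k, 1 ≤ k ∧ k + 2 ≤ N ∧ w = (a k, a (k + 1) + a (k + 2))) := by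
    intro K N hKN w hw
    rw [Finset.mem_biUnion] at hw
    obtain ⟨k, hk, hw⟩ := hw
    rw [Finset.mem_range] at hk
    have hTk : T k + n (f (T k)) ≤ N := by
      rw [← hTs]
      exact (hTmono.monotone (show k + 1 ≤ K from hk)).trans hKN
    simp only [hB, Finset.mem_image] at hw
    obtain ⟨v, hv, rfl⟩ := hw
    obtain ⟨⟨i, hi1, hi2, hiv⟩, ⟨j, hj1, hj2, hjv⟩, ⟨l, hl1, hl2, hlv⟩⟩ := hW _ v hv
    refine ⟨⟨T k + i, by omega, by omega, ?_⟩, ⟨T k + j, by omega, by omega, ?_⟩,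
      ⟨T k + l, by omega, by omega, ?_⟩⟩
    · rw [hablock k i hi1 (by omega), Nat.add_assoc, hablock k (i + 1) (by omega) (by omega), hiv]
    · rw [hablock k j hj1 (by omega), Nat.add_assoc, Nat.add_assoc,
        hablock k (j + 1) (by omega) (by omega), hablock k (j + 2) (by omega) (by omega), hjv,
        ← Nat.mul_add]
    · rw [hablock k l hl1 (by omega), Nat.add_assoc, Nat.add_assoc,
        hablock k (l + 1) (by omega) (by omega), hablock k (l + 2) (by omega) (by omega), hlv,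
        ← Nat.mul_add]
  have hUcard : ∀ K, ((Finset.range K).biUnion B).card = ∑ k ∈ Finset.range K, (W (f (T k))).card := by
    intro K
    rw [Finset.card_biUnion]
    · exact Finset.sum_congr rfl (fun k _ => hBcard k)
    · intro k _ k' _ hkk
      rcases Nat.lt_or_gt_of_ne hkk with h | h
      · exact hdisj k k' h
      · exact (hdisj k' k h).symm
  refine ⟨a, hapos, ?_⟩
  intro ε hε
  -- parameters
  obtain ⟨m, hm⟩ := exists_nat_ge (4 / ε)
  have hmpos : (0 : ℝ) < m := lt_of_lt_of_le (by positivity) hm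
  have hm4 : 4 ≤ ε * m := by
    rw [div_le_iff₀ hε] at hm
    linarith
  set K0 : ℕ := max m (m * n m) with hK0
  have hfK : ∀ k, K0 ≤ k → m ≤ f (T k) := by
    intro k hk
    have h1 := hTge k
    exact hf2 m (T k) (by omega) (by omega)
  obtain ⟨N0, hN0⟩ := exists_nat_ge (4 * (T K0 : ℝ) / ε)
  refine ⟨N0 + 1, ?_⟩
  intro N hN
  have hNpos : 1 ≤ N := by omega
  have hNr : 4 * (T K0 : ℝ) ≤ ε * N := by
    rw [div_le_iff₀ hε] at hN0
    have : (N0 : ℝ) ≤ N := by
      have : N0 ≤ N := by omega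
      exact_mod_cast this
    nlinarith
  -- K with T K ≤ N < T (K + 1)
  set K : ℕ := κ (N + 1) with hK
  have hK1 : T K ≤ N := by
    have h : T K < N + 1 := hκ1 (N + 1) (by omega)
    omega
  have hK2 : N + 1 ≤ T (K + 1) := hκ2 (N + 1) (by omega)
  refine ⟨(Finset.range K).biUnion B, hU K N hK1, ?_⟩
  rw [hUcard]
  by_cases hKK : K0 ≤ K
  swap
  · -- then N < T K0
    have h1 : K + 1 ≤ K0 := by omega
    have h2 := hTmono.monotone h1
    have h3 : N < T K0 := by omega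
    have h4 : (N : ℝ) < T K0 := by exact_mod_cast h3
    have h5 : (1 : ℝ) ≤ N := by exact_mod_cast hNpos
    have h6 : 1 < ε := by
      by_contra hcon
      push Not at hcon
      nlinarith
    have h7 : (1 - ε) * (N : ℝ) ≤ 0 := mul_nonpos_of_nonpos_of_nonneg (by linarith) (by linarith)
    exact h7.trans (Nat.cast_nonneg _)
  -- lower bound for the sum
  have hsum : ∀ k, K0 ≤ k → (1 - 1 / ((m : ℝ) + 1)) * ((T k : ℝ) - T K0) ≤
      ((∑ j ∈ Finset.range k, (W (f (T j))).card : ℕ) : ℝ) := by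
    intro k hk
    induction k, hk using Nat.le_induction with
    | base =>
      rw [sub_self, mul_zero]
      exact Nat.cast_nonneg _
    | succ k hk ih =>
      rw [Finset.sum_range_succ]
      push_cast at ih ⊢
      have h1 := hc (f (T k))
      have h2 : (T (k + 1) : ℝ) = T k + n (f (T k)) := by
        rw [hTs]; push_cast; ring
      rw [h2]
      have h3 : (m : ℝ) ≤ f (T k) := by exact_mod_cast hfK k hk
      have h4 : 1 / ((f (T k) : ℝ) + 1) ≤ 1 / ((m : ℝ) + 1) :=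
        one_div_le_one_div_of_le (by positivity) (by linarith)
      have h5 : (1 - 1 / ((m : ℝ) + 1)) * (n (f (T k)) : ℝ) ≤
          (1 - 1 / ((f (T k) : ℝ) + 1)) * n (f (T k)) :=
        mul_le_mul_of_nonneg_right (by linarith) (Nat.cast_nonneg _)
      linarith
  refine le_trans ?_ (hsum K hKK)
  -- N ≤ T K (1 + 1/m)
  have h1 : (f (T K) : ℝ) * n (f (T K)) ≤ T K := by exact_mod_cast hf1 (T K)
  have h2 : (m : ℝ) ≤ f (T K) := by exact_mod_cast hfK K hKK
  have h3 : (N : ℝ) + 1 ≤ T K + n (f (T K)) := by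
    rw [hTs] at hK2
    exact_mod_cast hK2
  have h4 : (m : ℝ) * n (f (T K)) ≤ T K := by
    refine le_trans ?_ h1
    exact mul_le_mul_of_nonneg_right h2 (Nat.cast_nonneg _)
  set x : ℝ := 1 / ((m : ℝ) + 1) with hx
  have hx0 : 0 < x := by positivity
  have hx1 : x * ((m : ℝ) + 1) = 1 := by
    rw [hx]
    field_simp
  have hx2 : 4 * x ≤ ε := by
    nlinarith
  have h5 : (1 - x) * (N : ℝ) ≤ T K := by
    have e1 : (m : ℝ) * N ≤ (m + 1) * T K := by nlinarith
    have e2 : x * ((m : ℝ) * N) ≤ x * ((m + 1) * T K) := mul_le_mul_of_nonneg_left e1 hx0.le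
    have e3 : x * ((m + 1) * (T K : ℝ)) = T K := by
      rw [← mul_assoc, hx1, one_mul]
    have e4 : x * ((m : ℝ) * N) = (1 - x) * N := by
      have : x * (m : ℝ) = 1 - x := by linarith
      rw [← mul_assoc, this]
    linarith
  have hx3 : x ≤ 1 := by
    have : (0 : ℝ) < m := hmpos
    nlinarith
  have h6 : (1 - x) * ((1 - x) * (N : ℝ)) ≤ (1 - x) * T K :=
    mul_le_mul_of_nonneg_left h5 (by linarith)
  have h7 : (0 : ℝ) ≤ N := Nat.cast_nonneg _
  have h8 : (0 : ℝ) ≤ T K0 := Nat.cast_nonneg _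
  nlinarith [mul_nonneg (mul_nonneg hx0.le hx0.le) h7, mul_nonneg hx0.le h8,
    mul_le_mul_of_nonneg_right hx2 h7]

end Pool.Agent.Helper42.BK
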